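import Pool.Agent.H631.TH.GStm

/-!
# Project TH (helper631), part K1 (helper52): the number of conditions
-/

set_option autoImplicit false

namespace Pool.Agent.H52.TH.K1

open Cardinal
open Pool.Agent.H631.TH

theorem mk_CV {M : Type} {c : Cardinal.{0}} (hc : ℵ₀ ≤ c) (hM : #M ≤ c) : #(CV M) ≤ c := by
  let f : CV M → List ℕ × Finset M := fun v => (v.stem, v.pr)
  have hf : Function.Injective f := by
    rintro ⟨a, b⟩ ⟨a', b'⟩ h
    simp only [f, Prod.mk.injEq] at h
    rw [h.1, h.2]
  refine (Cardinal.mk_le_of_injective hf).trans ?_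
  rw [Cardinal.mk_prod, Cardinal.lift_id, Cardinal.lift_id]
  have h1 : #(Finset M) ≤ c := by
    rcases finite_or_infinite M with h | h
    · exact (Cardinal.lt_aleph0_of_finite _).le.trans hc
    · rw [Cardinal.mk_finset_of_infinite]
      exact hM
  calc #(List ℕ) * #(Finset M) ≤ ℵ₀ * c := mul_le_mul' Cardinal.mk_le_aleph0 h1
    _ = c := Cardinal.aleph0_mul_eq hc

theorem th_K1 : S_K1 := by
  classical
  intro M T κ W hκ hM hW
  let f : {c : Cond M T // ∀ i ∉ W, c i = CV.top} → Finset (W × CV M) := fun c =>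
    (c.1.supp.subtype (· ∈ W)).image fun i : W => (i, c.1 i)
  have key : ∀ c d : {c : Cond M T // ∀ i ∉ W, c i = CV.top}, f c = f d →
      ∀ i : T, c.1 i ≠ CV.top → d.1 i = c.1 i := by
    intro c d h i hi
    have hiW : i ∈ W := by
      by_contra hcon
      exact hi (c.2 i hcon)
    have h2 : ((⟨i, hiW⟩ : W), c.1 i) ∈ f c :=
      Finset.mem_image.2 ⟨⟨i, hiW⟩, Finset.mem_subtype.2 (Cond.mem_supp.2 hi), rfl⟩
    rw [h] at h2
    obtain ⟨i', _, h3⟩ := Finset.mem_image.1 h2
    rw [Prod.mk.injEq] at h3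
    obtain ⟨h4, h5⟩ := h3
    rw [h4] at h5
    exact h5
  have hf : Function.Injective f := by
    intro c d h
    apply Subtype.ext
    apply Cond.ext'
    intro i
    by_cases h2 : c.1 i = CV.top
    · by_cases h3 : d.1 i = CV.top
      · rw [h2, h3]
      · exact key d c h.symm i h3
    · exact (key c d h i h2).symm
  refine (Cardinal.mk_le_of_injective hf).trans ?_
  have h2 : #(W × CV M) ≤ κ := by
    rw [Cardinal.mk_prod, Cardinal.lift_id, Cardinal.lift_id]
    calc #W * #(CV M) ≤ κ * κ := mul_le_mul' hW (mk_CV hκ hM)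
      _ = κ := Cardinal.mul_eq_self hκ
  rcases finite_or_infinite (W × CV M) with h3 | h3
  · exact (Cardinal.lt_aleph0_of_finite _).le.trans hκ
  · rw [Cardinal.mk_finset_of_infinite]
    exact h2

end Pool.Agent.H52.TH.K1
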